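import Pool.Agent.H986R2.GD.KerForm
import Pool.Agent.H128R3.JD.DelHk
import Pool.Agent.H128R3.GJB

/-!
# De Bruijn-Newman constants of the derivatives of the Ramanujan Xi function

Let `XiT t` be the heat flow of the Ramanujan Xi function, with kernel `exp (t u²) Δ(i eᵘ) e^{6u}`, so
that `XiT 0 = Ξ_Δ`.  All zeros of `Ξ_Δ` are real if and only if all zeros of `XiT t` are real for all
`t > 0`.  We prove that there is a constant `C` such that for ALL `t > 0` and ALL `n ≥ C / t` every zero of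
the `n`-th derivative of `XiT t` is real; and all zeros of `Ξ_Δ` are real if and only if the zeros are real
also in the remaining region `n t < C`.

Proof.  A saddle point argument shows that the nonreal zeros of `XiT t` lie below height `exp (C/t)`,
because the heat flow evaluates the Dirichlet series far inside its region of absolute convergence.  At
height `exp (c n)` the `n`-th derivative is governed in the same way by a shifted Dirichlet series,
uniformly in the heat parameter, so it has no nonreal zeros there; Jensen circles and Newton's identities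
exclude the lower ones after `C / t` derivatives.  (For the Riemann zeta function: the same theorem at
`MP_6c42c1_nt`; generic version `Pool.Agent.H986R2.GD`, building on `Pool.Agent.H471R3.GJ` and
`Pool.Agent.H24R2.JP`.)
-/

set_option autoImplicit false

namespace Pool.Agent.Results.MP_cd509c_nt.DeBruijnNewman

/-- `Δ(i y) = e^(-2πy) ∏_{n ≥ 1} (1 - e^(-2πny))^24`, the modular discriminant on the imaginary axis
(the function of the frozen statement S12755). -/
noncomputable def delta (y : ℝ) : ℝ :=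
  Real.exp (-2 * Real.pi * y) * ∏' n : ℕ, (1 - Real.exp (-2 * Real.pi * ((n : ℝ) + 1) * y)) ^ 24

/-- The Ramanujan Xi function `Ξ_Δ(z) = Λ(6 + i z)`, `Λ(s) = ∫_0^∞ Δ(i y) y^(s-1) dy`. -/
noncomputable def Xi (z : ℂ) : ℂ := mellin (fun y : ℝ => ((delta y : ℝ) : ℂ)) (6 + Complex.I * z)

/-- The heat flow `Ξ_t(z) = ∫ exp (t u²) Δ(i eᵘ) e^(6u) e^(i z u) du` over the real line
(`Ξ_0 = Ξ_Δ`: substitute `y = eᵘ` in the Mellin transform). -/
noncomputable def XiT (t : ℝ) (z : ℂ) : ℂ :=
  ∫ u : ℝ, ((Real.exp (t * u ^ 2) * (delta (Real.exp u) * Real.exp (6 * u)) : ℝ) : ℂ) *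
    Complex.exp (Complex.I * z * u)

theorem result :
    ∃ C : ℝ, 0 < C ∧
      (∀ (t : ℝ) (n : ℕ), 0 < t → C ≤ n * t → ∀ z : ℂ, iteratedDeriv n (XiT t) z = 0 → z.im = 0) ∧
      ((∀ z : ℂ, Xi z = 0 → z.im = 0) ↔
        ∀ (t : ℝ) (n : ℕ), 0 < t → n * t < C → ∀ z : ℂ, iteratedDeriv n (XiT t) z = 0 → z.im = 0) := by
  obtain ⟨B, hB⟩ := Pool.Agent.H128R3.JD.DelHk.isHk
  set H := Pool.Agent.H128R3.JD.DelHk.hk B with hH
  have hL := (Pool.Agent.H128R3.GJA.isHk_isL H hB).2.2.2
  have hκ := Pool.Agent.H128R3.GJB.kp_pos hB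
  have he : H.ε = 1 := rfl
  have hP : ∀ u, (Pool.Agent.H471R3.GJ.dat H).Φ u = 1 / Pool.Agent.H471R3.GJ.kp H *
      (fun u => delta (Real.exp u) * Real.exp (6 * u)) (u / Pool.Agent.H471R3.GJ.kp H) := by
    intro u
    show Pool.Agent.H471R3.GJ.PhiH H u = _
    unfold Pool.Agent.H471R3.GJ.PhiH
    rw [if_pos he]
    unfold Pool.Agent.H471R3.GJ.Phi0
    have h1 : H.k / 2 * u / Pool.Agent.H471R3.GJ.kp H = 6 * (u / Pool.Agent.H471R3.GJ.kp H) := by
      have : H.k = 12 := rfl
      rw [this]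
      ring
    rw [h1]
    have h2 : H.φ = delta := rfl
    rw [h2]
    ring
  obtain ⟨C, hC, h1, h2⟩ := Pool.Agent.H986R2.GD.kernel_thm _ hL hκ
    (P := fun u => delta (Real.exp u) * Real.exp (6 * u)) hP
  have hXi : ∀ z : ℂ, (Pool.Agent.H471R3.GJ.dat H).XX z =
      Xi (-Complex.I * (Pool.Agent.H471R3.GJ.kp H * z)) := by
    intro z
    have h3 := Pool.Agent.H128R3.GJB.X1_kp hB z
    rw [if_pos he, one_mul] at h3
    rw [h3]
    show mellin (fun y : ℝ => ((delta y : ℝ) : ℂ)) ((((12 : ℝ) / 2 : ℝ) : ℂ) +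
      (Pool.Agent.H471R3.GJ.kp H : ℂ) * z) = _
    unfold Xi
    congr 1
    have h6 : (((12 : ℝ) / 2 : ℝ) : ℂ) = 6 := by
      push_cast
      norm_num
    rw [h6]
    have : Complex.I * (-Complex.I * ((Pool.Agent.H471R3.GJ.kp H : ℂ) * z)) =
        -(Complex.I * Complex.I) * ((Pool.Agent.H471R3.GJ.kp H : ℂ) * z) := by ring
    rw [this, Complex.I_mul_I]
    ring
  have him : ∀ z : ℂ, (-Complex.I * ((Pool.Agent.H471R3.GJ.kp H : ℂ) * z)).im =
      -(Pool.Agent.H471R3.GJ.kp H * z.re) := by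
    intro z
    rw [neg_mul, Complex.neg_im, Complex.I_mul_im, Complex.re_ofReal_mul]
  refine ⟨C, hC, h1, Iff.trans ?_ h2⟩
  constructor
  · intro h z hz
    rw [hXi] at hz
    have h3 := h _ hz
    rw [him, neg_eq_zero] at h3
    exact (mul_eq_zero.1 h3).resolve_left hκ.ne'
  · intro h z hz
    have h3 := h (Complex.I * z / (Pool.Agent.H471R3.GJ.kp H : ℂ)) (by
      rw [hXi]
      have hκc : (Pool.Agent.H471R3.GJ.kp H : ℂ) ≠ 0 := by exact_mod_cast hκ.ne'
      rw [mul_div_cancel₀ _ hκc]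
      have : -Complex.I * (Complex.I * z) = -(Complex.I * Complex.I) * z := by ring
      rw [this, Complex.I_mul_I, neg_neg, one_mul, hz])
    have e : Complex.I * z / (Pool.Agent.H471R3.GJ.kp H : ℂ) =
        ((1 / Pool.Agent.H471R3.GJ.kp H : ℝ) : ℂ) * (Complex.I * z) := by
      push_cast
      ring
    rw [e, Complex.re_ofReal_mul, Complex.I_mul_re] at h3
    have := (mul_eq_zero.1 h3).resolve_left (one_div_ne_zero hκ.ne')
    linarith

end Pool.Agent.Results.MP_cd509c_nt.DeBruijnNewman
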