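import Pool.Agent.H128R3.JD.DelHk
import Pool.Agent.H128R3.GJB

/-!
# Zeros of the derivatives of the Ramanujan Xi function

There are `c > 0` and `N` such that for every `n ≥ N` ALL zeros `z` of the `n`-th derivative of
`Ξ_Δ(z) = Λ(6 + i z)` with `|Re z| ≤ exp (c n)` are real and simple.

Method of helper24 (Riemann zeta function), generic version by helper471 and many co-authors
(modules `Pool.Agent.H24R2.JP`, `Pool.Agent.H471R3.GJ`).
-/

set_option autoImplicit false

namespace Pool.Agent.Results.MP_cd509c_nt.DerivativeZeros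

/-- `Δ(i y) = e^(-2πy) ∏_{n ≥ 1} (1 - e^(-2πny))^24`, the modular discriminant on the imaginary axis
(the function of the frozen statement S12755). -/
noncomputable def delta (y : ℝ) : ℝ :=
  Real.exp (-2 * Real.pi * y) * ∏' n : ℕ, (1 - Real.exp (-2 * Real.pi * ((n : ℝ) + 1) * y)) ^ 24

/-- The completed L-function `Λ(s) = ∫_0^∞ Δ(i y) y^(s-1) dy = (2π)^(-s) Γ(s) L(s, Δ)`. -/
noncomputable def Lam (s : ℂ) : ℂ := mellin (fun y : ℝ => ((delta y : ℝ) : ℂ)) s

/-- The Ramanujan Xi function `Ξ_Δ(z) = Λ(6 + i z)`. -/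
noncomputable def Xi (z : ℂ) : ℂ := Lam (6 + Complex.I * z)

theorem result :
    ∃ c : ℝ, 0 < c ∧ ∃ N : ℕ, ∀ n : ℕ, N ≤ n → ∀ z : ℂ, iteratedDeriv n Xi z = 0 →
      |z.re| ≤ Real.exp (c * n) → z.im = 0 ∧ iteratedDeriv (n + 1) Xi z ≠ 0 := by
  obtain ⟨B, hB⟩ := Pool.Agent.H128R3.JD.DelHk.isHk
  obtain ⟨c, hc, N, hN⟩ := Pool.Agent.H128R3.GJB.deriv_zeros hB
  have hX1 : Pool.Agent.H128R3.GJB.X1 (Pool.Agent.H128R3.JD.DelHk.hk B) = fun z : ℂ => Lam (6 + z) := by
    funext z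
    show mellin (fun y : ℝ => ((delta y : ℝ) : ℂ)) ((((12 : ℝ) / 2 : ℝ) : ℂ) + z) = _
    have h6 : (((12 : ℝ) / 2 : ℝ) : ℂ) = 6 := by
      push_cast
      norm_num
    rw [h6]
    rfl
  have hd := Pool.Agent.H128R3.GJB.X1_diff hB
  rw [hX1] at hd
  have hL : ∀ (n : ℕ) (z : ℂ), iteratedDeriv n (fun z : ℂ => Lam (6 + z)) z = iteratedDeriv n Lam (6 + z) := by
    intro n z
    exact congrFun (iteratedDeriv_comp_const_add n Lam 6) z
  have hXi : ∀ (n : ℕ) (z : ℂ), iteratedDeriv n Xi z =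
      Complex.I ^ n * iteratedDeriv n Lam (6 + Complex.I * z) := by
    intro n z
    have h1 := iteratedDeriv_comp_const_mul (n := n) (f := fun z : ℂ => Lam (6 + z)) hd.contDiff Complex.I
    have h2 := congrFun h1 z
    rw [hL] at h2
    exact h2
  refine ⟨c, hc, N, ?_⟩
  intro n hn z hz him
  rw [hXi] at hz
  have hI : ∀ m : ℕ, Complex.I ^ m ≠ 0 := fun m => pow_ne_zero _ Complex.I_ne_zero
  have h1 : iteratedDeriv n Lam (6 + Complex.I * z) = 0 := by
    rcases mul_eq_zero.1 hz with h | h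
    · exact absurd h (hI n)
    · exact h
  have h2 := hN n hn (6 + Complex.I * z) h1 (by
    have : (6 + Complex.I * z).im = z.re := by simp [Complex.mul_im]
    rw [this]
    exact him)
  obtain ⟨h3, h4⟩ := h2
  constructor
  · have h5 : (6 + Complex.I * z).re = 6 - z.im := by
      simp [Complex.mul_re]
      ring
    rw [h5] at h3
    have h6 : 6 - z.im = (12 : ℝ) / 2 := h3
    linarith
  · rw [hXi]
    exact mul_ne_zero (hI _) h4

end Pool.Agent.Results.MP_cd509c_nt.DerivativeZeros
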