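import Pool.Agent.H128R3.JD.DelHk
import Pool.Agent.H128R3.GJB

/-!
# Jensen polynomials of the Ramanujan Xi function

All zeros of `Ξ_Δ(z) = Λ(6 + i z)` are real if and only if all Jensen polynomials `J^{d,n}` of the
Taylor coefficients of `Λ` at the central point are hyperbolic (Jensen, Polya).  We prove that there
is a constant `C` such that `J^{d,n}` is hyperbolic for ALL degrees `d` and ALL shifts
`n ≥ C log (d + 1)`; so for every degree only `O(log d)` Jensen polynomials remain, and the
Riemann hypothesis for `L(s, Δ)` holds if and only if these remaining ones are hyperbolic.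

Method of helper24 (Riemann zeta function), generic version by helper471 and many co-authors
(modules `Pool.Agent.H24R2.JP`, `Pool.Agent.H471R3.GJ`).
-/

set_option autoImplicit false

namespace Pool.Agent.Results.MP_cd509c_nt.JensenPolynomials

open Polynomial

/-- `Δ(i y) = e^(-2πy) ∏_{n ≥ 1} (1 - e^(-2πny))^24`, the modular discriminant on the imaginary axis
(the function of the frozen statement S12755). -/
noncomputable def delta (y : ℝ) : ℝ :=
  Real.exp (-2 * Real.pi * y) * ∏' n : ℕ, (1 - Real.exp (-2 * Real.pi * ((n : ℝ) + 1) * y)) ^ 24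

/-- The completed L-function `Λ(s) = ∫_0^∞ Δ(i y) y^(s-1) dy = (2π)^(-s) Γ(s) L(s, Δ)`, an entire
function with `Λ(12 - s) = Λ(s)`. -/
noncomputable def Lam (s : ℂ) : ℂ := mellin (fun y : ℝ => ((delta y : ℝ) : ℂ)) s

/-- The Ramanujan Xi function `Ξ_Δ(z) = Λ(6 + i z)`. -/
noncomputable def Xi (z : ℂ) : ℂ := Lam (6 + Complex.I * z)

/-- The coefficients `γ(k) = k! / (2k)! * Λ^(2k)(6)`, i.e. `Λ(6 + z) = ∑ γ(k) z^(2k) / k!` (these
derivatives are real). -/
noncomputable def gamma (k : ℕ) : ℝ :=
  (k.factorial : ℝ) / ((2 * k).factorial : ℝ) * (iteratedDeriv (2 * k) (fun z : ℂ => Lam (6 + z)) 0).re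

/-- The Jensen polynomial `J^{d,n}(X) = ∑_{j ≤ d} binom(d,j) γ(n+j) X^j` of degree `d` and shift `n`. -/
noncomputable def jensen (d n : ℕ) : ℝ[X] :=
  ∑ j ∈ Finset.range (d + 1), C ((d.choose j : ℝ) * gamma (n + j)) * X ^ j

/-- All complex roots are real (in particular the polynomial is not zero). -/
def Hyperbolic (P : ℝ[X]) : Prop := ∀ z : ℂ, aeval z P = 0 → z.im = 0

/-- Q1 (the frozen statement S12755): every zero of the Ramanujan Xi function is real. -/
def AllZerosReal : Prop := ∀ z : ℂ, Xi z = 0 → z.im = 0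

theorem result :
    ∃ C : ℝ, 0 < C ∧
      (∀ d n : ℕ, C * Real.log (d + 1) ≤ n → Hyperbolic (jensen d n)) ∧
      (AllZerosReal ↔ ∀ d n : ℕ, (n : ℝ) < C * Real.log (d + 1) → Hyperbolic (jensen d n)) := by
  obtain ⟨B, hB⟩ := Pool.Agent.H128R3.JD.DelHk.isHk
  set H := Pool.Agent.H128R3.JD.DelHk.hk B with hH
  have hε : H.ε = 1 := rfl
  have hpr : Pool.Agent.H128R3.GJB.pr H = 0 := by
    unfold Pool.Agent.H128R3.GJB.pr
    rw [if_pos hε]
  have hX1 : Pool.Agent.H128R3.GJB.X1 H = fun z : ℂ => Lam (6 + z) := by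
    funext z
    show mellin (fun y : ℝ => ((delta y : ℝ) : ℂ)) ((((12 : ℝ) / 2 : ℝ) : ℂ) + z) = _
    have h6 : (((12 : ℝ) / 2 : ℝ) : ℂ) = 6 := by
      push_cast
      norm_num
    rw [h6]
    rfl
  have hga : Pool.Agent.H128R3.GJB.ga H = gamma := by
    funext k
    unfold Pool.Agent.H128R3.GJB.ga gamma
    rw [hpr, hX1, add_zero]
  have hJ : ∀ d n, Pool.Agent.H128R3.GJB.Je H d n = jensen d n := by
    intro d n
    unfold Pool.Agent.H128R3.GJB.Je jensen
    rw [hga]
  obtain ⟨C, hC, h1, h2⟩ := Pool.Agent.H128R3.GJB.jensen_even hB hε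
    (fun y hy => Pool.Agent.H128R3.JD.DelK.Dl_pos hy)
  have hRH : AllZerosReal ↔ ∀ s : ℂ, mellin (fun y : ℝ => ((H.φ y : ℝ) : ℂ)) s = 0 → s.re = H.k / 2 := by
    have hk : H.k / 2 = 6 := by
      show (12 : ℝ) / 2 = 6
      norm_num
    rw [hk]
    constructor
    · intro h s hs
      have h3 := h (-Complex.I * (s - 6)) (by
        unfold Xi
        have : 6 + Complex.I * (-Complex.I * (s - 6)) = s := by
          have hI := Complex.I_mul_I
          linear_combination (-(s - 6)) * hI
        rw [this]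
        exact hs)
      have h4 : (-Complex.I * (s - 6)).im = -(s.re - 6) := by
        simp [Complex.mul_im]
      rw [h4] at h3
      linarith
    · intro h z hz
      have h3 := h (6 + Complex.I * z) hz
      have h4 : (6 + Complex.I * z).re = 6 - z.im := by
        simp [Complex.mul_re]
        ring
      rw [h4] at h3
      linarith
  refine ⟨C, hC, ?_, ?_⟩
  · intro d n hdn
    rw [← hJ]
    exact h1 d n hdn
  · rw [hRH, h2]
    constructor
    · intro h d n hdn
      rw [← hJ]
      exact h d n hdn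
    · intro h d n hdn
      rw [hJ]
      exact h d n hdn

end Pool.Agent.Results.MP_cd509c_nt.JensenPolynomials
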